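import Pool.Agent.H27.L1.H76.GU.Targets

/-!
Rows THT, THS, MX2 of the board gu: the sum of a decreasing kernel over all integer matrices.
-/

set_option autoImplicit false

namespace Pool.Agent.H27.L1.H27.GU

open MeasureTheory Pool.Agent.H27.L1.H34.GM Pool.Agent.H27.L1.H34.GZ Pool.Agent.H27.L1.H34.GU Pool.Agent.H27.L1.H76.GU

private lemma sc_entry {m : ℕ} (M : Mat m) (i j : Fin m) : |M i j| ≤ sz M := by
  unfold sz
  have h1 := norm_le_pi_norm ((fun i j => M i j) : V m) i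
  have h2 := norm_le_pi_norm (((fun i j => M i j) : V m) i) j
  rw [Real.norm_eq_abs] at h2
  exact h2.trans h1

private lemma sc_abs {m : ℕ} (v : Fin m → ℝ) (j : Fin m) : |v j| ≤ rowN v := by
  unfold rowN
  rw [← Real.sqrt_sq_eq_abs]
  refine Real.sqrt_le_sqrt ?_
  exact Finset.single_le_sum (f := fun i => v i ^ 2) (fun i _ => sq_nonneg _) (Finset.mem_univ j)

private lemma sc_rowN_le {m : ℕ} (v : Fin m → ℝ) (c : ℝ) (hc : 0 ≤ c) (h : ∀ j, |v j| ≤ c) :
    rowN v ≤ m * c := by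
  unfold rowN
  rw [Real.sqrt_le_left (by positivity)]
  calc ∑ i, v i ^ 2 ≤ ∑ _i : Fin m, c ^ 2 := by
        refine Finset.sum_le_sum fun i _ => ?_
        have := h i
        rw [← sq_abs]
        exact pow_le_pow_left₀ (abs_nonneg _) this 2
    _ = m * c ^ 2 := by simp
    _ ≤ (m * c) ^ 2 := by
        rw [mul_pow]
        refine mul_le_mul_of_nonneg_right ?_ (sq_nonneg _)
        rcases Nat.eq_zero_or_pos m with h0 | h0
        · subst h0
          simp
        · have : (1 : ℝ) ≤ m := by exact_mod_cast h0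
          nlinarith

private lemma sc_row {m : ℕ} (h M : Mat m) (i : Fin m) :
    rowN (fun l => (h * M) i l) ≤ (m : ℝ) ^ 2 * (rowN (h i) * sz M) := by
  have hr : 0 ≤ rowN (h i) := Real.sqrt_nonneg _
  have hs : 0 ≤ sz M := norm_nonneg _
  have h1 := sc_rowN_le (fun l => (h * M) i l) (m * (rowN (h i) * sz M)) (by positivity) (by
    intro l
    show |(h * M) i l| ≤ _
    rw [Matrix.mul_apply]
    calc |∑ j, h i j * M j l| ≤ ∑ j, |h i j * M j l| := Finset.abs_sum_le_sum_abs _ _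
      _ ≤ ∑ _j : Fin m, rowN (h i) * sz M := by
          refine Finset.sum_le_sum fun j _ => ?_
          rw [abs_mul]
          exact mul_le_mul (sc_abs (h i) j) (sc_entry M j l) (abs_nonneg _) hr
      _ = m * (rowN (h i) * sz M) := by simp)
  calc _ ≤ _ := h1
    _ = _ := by ring

/-- the rows of `α g` -/
private lemma sc_bound (hC : T_CNT) {m : ℕ} (hm1 : 1 ≤ m) (r : ℝ) (hr : 0 < r) (h g : Mat m)
    (hh : h.det ≠ 0) (hg : g.det ≠ 0) (n : Mat m) (a : Fin m → ℝ) (k : Mat m) (hS : Sgl h n a k)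
    (α : ZM m) (i : Fin m) :
    rowN (vb (α i) g) ≤ ((m : ℝ) ^ 3 * 2 ^ m * r * (aN g / aN h)) * a i *
      sz (kk r h (cR α) g) := by
  obtain ⟨_, hrow, _, _⟩ := hC m h n a k hS
  have hah : 0 < aN h := Real.rpow_pos_of_pos (abs_pos.2 hh) _
  have hag : 0 < aN g := Real.rpow_pos_of_pos (abs_pos.2 hg) _
  set M := kk r h (cR α) g with hM
  have hs : 0 ≤ sz M := norm_nonneg _
  have e1 : h * M = (r⁻¹ * aN h / aN g) • (cR α * g) := by
    rw [hM]
    unfold kk
    rw [Matrix.mul_smul, Matrix.mul_assoc h⁻¹, Matrix.mul_nonsing_inv_cancel_left]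
    exact (Ne.isUnit hh)
  have e2 : vb (α i) g = fun l => (r * (aN g / aN h)) * (h * M) i l := by
    funext l
    rw [e1]
    simp only [Matrix.smul_apply, smul_eq_mul]
    have : (cR α * g) i l = vb (α i) g l := by
      unfold vb cR
      rw [Matrix.mul_apply]
      simp [Matrix.vecMul, dotProduct]
    rw [this]
    field_simp
  have e3 : rowN (vb (α i) g) = (r * (aN g / aN h)) * rowN (fun l => (h * M) i l) := by
    rw [e2]
    unfold rowN
    have hp : 0 ≤ r * (aN g / aN h) := by positivity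
    rw [← Real.sqrt_sq hp, ← Real.sqrt_mul (sq_nonneg _), Real.sqrt_sq hp]
    congr 1
    rw [Finset.mul_sum]
    exact Finset.sum_congr rfl fun l _ => by ring
  rw [e3]
  have h3 := sc_row h M i
  have h4 := hrow i
  calc r * (aN g / aN h) * rowN (fun l => (h * M) i l)
      ≤ r * (aN g / aN h) * ((m : ℝ) ^ 2 * ((m * 2 ^ m * a i) * sz M)) := by
        refine mul_le_mul_of_nonneg_left (h3.trans ?_) (by positivity)
        gcongr
    _ = _ := by ring

private lemma sc_count (hC : T_CNT) {m : ℕ} (g n : Mat m) (b : Fin m → ℝ) (k : Mat m)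
    (hS : Sgl g n b k) (R : Fin m → ℝ) (hR : ∀ i, 0 ≤ R i) :
    ∑' α : ZM m, (open Classical in
      if ∀ i, rowN (vb (α i) g) ≤ R i then (1 : ENNReal) else 0) ≤
      ENNReal.ofReal (∏ i, ∏ j, (1 + 2 * R i / b j)) := by
  classical
  obtain ⟨hcnt, _⟩ := hC m g n b k hS
  set F : Finset (ZM m) :=
    (Fintype.piFinset (fun i => (hcnt (R i) (hR i)).1.toFinset) : Finset (Fin m → Fin m → ℤ))
    with hF
  have hmem : ∀ α : ZM m, α ∈ F ↔ ∀ i, rowN (vb (α i) g) ≤ R i := by
    intro α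
    rw [hF]
    refine Fintype.mem_piFinset.trans ?_
    simp only [Set.Finite.mem_toFinset, Set.mem_ofPred_eq]
  have hcard : (F.card : ℝ) ≤ ∏ i, ∏ j, (1 + 2 * R i / b j) := by
    have e1 : F.card = ∏ i, ({c : Fin m → ℤ | rowN (vb c g) ≤ R i}.ncard) := by
      rw [hF]
      refine (Fintype.card_piFinset _).trans ?_
      exact Finset.prod_congr rfl fun i _ => (Set.ncard_eq_toFinset_card _ _).symm
    rw [e1, Nat.cast_prod]
    exact Finset.prod_le_prod (fun i _ => Nat.cast_nonneg _) fun i _ => (hcnt (R i) (hR i)).2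
  rw [tsum_eq_sum (s := F)]
  · calc ∑ α ∈ F, (if ∀ i, rowN (vb (α i) g) ≤ R i then (1 : ENNReal) else 0)
        ≤ ∑ _α ∈ F, (1 : ENNReal) := by
          refine Finset.sum_le_sum fun α _ => ?_
          split_ifs
          · exact le_rfl
          · exact bot_le
      _ = (F.card : ENNReal) := by simp
      _ = ENNReal.ofReal (F.card : ℝ) := (ENNReal.ofReal_natCast _).symm
      _ ≤ _ := ENNReal.ofReal_le_ofReal hcard
  · intro α hα
    rw [if_neg]
    intro h
    exact hα ((hmem α).2 h)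

private lemma sc_sym {m : ℕ} (a : Fin m → ℝ) (ha : ∀ i, 0 < a i)
    (ho : ∀ i j, i ≤ j → a i ≤ 2 ^ m * a j) :
    ∏ i, ∏ l, max 1 (a i / a l) ≤ ((4 : ℝ) ^ m) ^ (m * m) * skw a := by
  have e1 : ∏ i, ∏ l, max 1 (a i / a l) =
      (∏ i, ∏ l, (if i < l then max 1 (a i / a l) else 1)) *
        ∏ i, ∏ l, (if l < i then max 1 (a i / a l) else 1) := by
    rw [← Finset.prod_mul_distrib]
    refine Finset.prod_congr rfl fun i _ => ?_
    rw [← Finset.prod_mul_distrib]
    refine Finset.prod_congr rfl fun l _ => ?_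
    rcases lt_trichotomy i l with h | h | h
    · rw [if_pos h, if_neg (not_lt.2 h.le), mul_one]
    · subst h
      rw [if_neg (lt_irrefl _), mul_one, div_self (ha i).ne', max_self]
    · rw [if_neg (not_lt.2 h.le), if_pos h, one_mul]
  have e2 : (∏ i, ∏ l, (if l < i then max 1 (a i / a l) else 1)) =
      ∏ i, ∏ l, (if i < l then max 1 (a l / a i) else 1) := Finset.prod_comm
  rw [e1, e2, ← Finset.prod_mul_distrib]
  have e3 : ((4 : ℝ) ^ m) ^ (m * m) * skw a =
      ∏ i : Fin m, ∏ j : Fin m, ((4 : ℝ) ^ m * (if i < j then a j / a i else 1)) := by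
    simp only [Finset.prod_mul_distrib, Finset.prod_const, Finset.card_univ, Fintype.card_fin]
    unfold skw
    rw [← pow_mul ((4 : ℝ) ^ m)]
  rw [e3]
  refine Finset.prod_le_prod (fun i _ => ?_) fun i _ => ?_
  · refine mul_nonneg (Finset.prod_nonneg fun l _ => ?_) (Finset.prod_nonneg fun l _ => ?_)
    · split_ifs <;> positivity
    · split_ifs <;> positivity
  rw [← Finset.prod_mul_distrib]
  refine Finset.prod_le_prod (fun l _ => ?_) fun l _ => ?_
  · refine mul_nonneg ?_ ?_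
    · split_ifs <;> positivity
    · split_ifs <;> positivity
  have h4 : (1 : ℝ) ≤ 4 ^ m := one_le_pow₀ (by norm_num)
  by_cases h : i < l
  · rw [if_pos h, if_pos h, if_pos h]
    have hi := ha i
    have hl := ha l
    have h1 := ho i l h.le
    have hq : 0 < a l / a i := by positivity
    have hq2 : a i / a l ≤ 2 ^ m := by
      rw [div_le_iff₀ hl]
      exact h1
    rcases le_total (a i / a l) 1 with h2 | h2
    · rw [max_eq_left h2, one_mul]
      have h5 : 1 ≤ a l / a i := by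
        rw [le_div_iff₀ hi, one_mul]
        rw [div_le_iff₀ hl, one_mul] at h2
        exact h2
      rw [max_eq_right h5]
      nlinarith
    · rw [max_eq_right h2]
      have h5 : a l / a i ≤ 1 := by
        rw [div_le_iff₀ hi, one_mul]
        rw [le_div_iff₀ hl, one_mul] at h2
        exact h2
      rw [max_eq_left h5, mul_one]
      have h6 : (a i / a l) * (a i / a l) ≤ 4 ^ m := by
        calc (a i / a l) * (a i / a l) ≤ 2 ^ m * 2 ^ m := by
              apply mul_le_mul hq2 hq2 (by positivity) (by positivity)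
          _ = 4 ^ m := by
              rw [← mul_pow]
              norm_num
      have h7 : (a i / a l) * (a l / a i) = 1 := by
        field_simp
      calc a i / a l = (a i / a l) * (a i / a l) * (a l / a i) := by
            rw [mul_assoc, h7, mul_one]
        _ ≤ 4 ^ m * (a l / a i) := mul_le_mul_of_nonneg_right h6 hq.le
  · rw [if_neg h, if_neg h, if_neg h]
    linarith

private lemma sc_max_pow (t : ℝ) (ht : 0 ≤ t) (m : ℕ) : (max 1 t) ^ m = max 1 (t ^ m) := by
  rcases le_total t 1 with h | h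
  · rw [max_eq_left h, max_eq_left (pow_le_one₀ ht h), one_pow]
  · rw [max_eq_right h, max_eq_right (one_le_pow₀ h)]

private lemma sc_A {m : ℕ} (a : Fin m → ℝ) (ha : ∀ i, 0 < a i)
    (ho : ∀ i j, i ≤ j → a i ≤ 2 ^ m * a j) (A : ℝ) (hA : 0 < A) (hAm : A ^ m = ∏ j, a j) :
    (∏ i : Fin m, ∏ _j : Fin m, max 1 (a i / A) ≤ ((4 : ℝ) ^ m) ^ (m * m) * skw a) ∧
    (∏ _i : Fin m, ∏ j : Fin m, max 1 (A / a j) ≤ ((4 : ℝ) ^ m) ^ (m * m) * skw a) := by
  constructor
  · refine le_trans (Finset.prod_le_prod (fun i _ => Finset.prod_nonneg fun j _ => by positivity)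
      fun i _ => ?_) (sc_sym a ha ho)
    rw [Finset.prod_const, Finset.card_univ, Fintype.card_fin, sc_max_pow _
      (div_nonneg (ha i).le hA.le), div_pow, hAm]
    have e : a i ^ m / ∏ j, a j = ∏ j, a i / a j := by
      rw [Finset.prod_div_distrib, Finset.prod_const, Finset.card_univ, Fintype.card_fin]
    rw [e]
    refine max_le ?_ ?_
    · exact (by simp : (1 : ℝ) = ∏ _j : Fin m, (1 : ℝ)).le.trans
        (Finset.prod_le_prod (fun _ _ => zero_le_one) fun j _ => le_max_left _ _)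
    · exact Finset.prod_le_prod (fun j _ => div_nonneg (ha i).le (ha j).le)
        fun j _ => le_max_right _ _
  · rw [Finset.prod_comm]
    refine le_trans (Finset.prod_le_prod (fun i _ => Finset.prod_nonneg fun j _ => by positivity)
      fun j _ => ?_) (Finset.prod_comm.trans_le (sc_sym a ha ho))
    rw [Finset.prod_const, Finset.card_univ, Fintype.card_fin, sc_max_pow _
      (div_nonneg hA.le (ha j).le), div_pow, hAm]
    have e : (∏ i, a i) / a j ^ m = ∏ i, a i / a j := by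
      rw [Finset.prod_div_distrib, Finset.prod_const, Finset.card_univ, Fintype.card_fin]
    rw [e]
    refine max_le ?_ ?_
    · exact (by simp : (1 : ℝ) = ∏ _i : Fin m, (1 : ℝ)).le.trans
        (Finset.prod_le_prod (fun _ _ => zero_le_one) fun i _ => le_max_left _ _)
    · exact Finset.prod_le_prod (fun i _ => div_nonneg (ha i).le (ha j).le)
        fun i _ => le_max_right _ _

private lemma sc_prod {m : ℕ} (a b : Fin m → ℝ) (ha : ∀ i, 0 < a i) (hb : ∀ i, 0 < b i)
    (hoa : ∀ i j, i ≤ j → a i ≤ 2 ^ m * a j) (hob : ∀ i j, i ≤ j → b i ≤ 2 ^ m * b j)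
    (A B : ℝ) (hA : 0 < A) (hB : 0 < B) (hAm : A ^ m = ∏ j, a j) (hBm : B ^ m = ∏ j, b j)
    (c : ℝ) (hc : 0 ≤ c) :
    ∏ i, ∏ j, (1 + c * (B / A) * a i / b j) ≤
      (1 + c) ^ (m * m) * (((4 : ℝ) ^ m) ^ (m * m)) ^ 2 * (skw a * skw b) := by
  have h1 : ∏ i, ∏ j, (1 + c * (B / A) * a i / b j) ≤
      ∏ i : Fin m, ∏ j : Fin m, ((1 + c) * (max 1 (a i / A) * max 1 (B / b j))) := by
    have h0 : ∀ i j, 0 ≤ 1 + c * (B / A) * a i / b j := by
      intro i j
      have := ha i
      have := hb j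
      positivity
    refine Finset.prod_le_prod (fun i _ => Finset.prod_nonneg fun j _ => h0 i j) fun i _ =>
      Finset.prod_le_prod (fun j _ => h0 i j) fun j _ => ?_
    have hi := ha i
    have hj := hb j
    have e : c * (B / A) * a i / b j = c * ((a i / A) * (B / b j)) := by
      field_simp
    rw [e]
    have h2 : (1 : ℝ) ≤ max 1 (a i / A) * max 1 (B / b j) :=
      one_le_mul_of_one_le_of_one_le (le_max_left _ _) (le_max_left _ _)
    have h3 : (a i / A) * (B / b j) ≤ max 1 (a i / A) * max 1 (B / b j) :=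
      mul_le_mul (le_max_right _ _) (le_max_right _ _) (by positivity)
        (le_trans zero_le_one (le_max_left _ _))
    nlinarith
  refine h1.trans ?_
  simp only [Finset.prod_mul_distrib]
  obtain ⟨h4, _⟩ := sc_A a ha hoa A hA hAm
  obtain ⟨_, h5⟩ := sc_A b hb hob B hB hBm
  simp only [Finset.prod_const, Finset.card_univ, Fintype.card_fin] at h4 h5 ⊢
  have e1 : ((1 + c) ^ m) ^ m = (1 + c) ^ (m * m) := by rw [← pow_mul]
  have p4 : 0 ≤ ∏ x : Fin m, max 1 (a x / A) ^ m := Finset.prod_nonneg fun j _ => by positivity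
  have p5 : 0 ≤ (∏ x : Fin m, max 1 (B / b x)) ^ m :=
    pow_nonneg (Finset.prod_nonneg fun j _ => by positivity) _
  calc ((1 + c) ^ m) ^ m * ((∏ x, max 1 (a x / A) ^ m) * (∏ x, max 1 (B / b x)) ^ m)
      ≤ (1 + c) ^ (m * m) * ((((4 : ℝ) ^ m) ^ (m * m) * skw a) *
        (((4 : ℝ) ^ m) ^ (m * m) * skw b)) := by
        rw [e1]
        exact mul_le_mul_of_nonneg_left (mul_le_mul h4 h5 p5 (p4.trans h4)) (by positivity)
    _ = _ := by ring

/-- the sum, with Siegel data for `h` and `g` -/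
private lemma sc_main (hC : T_CNT) {m : ℕ} (hm1 : 1 ≤ m) (N : ℝ) (hN : (m : ℝ) * m + 1 < N)
    (r : ℝ) (hr : 0 < r) : ∃ C : ℝ, 0 < C ∧ ∀ h g : Mat m, h.det ≠ 0 → g.det ≠ 0 →
      ∀ (n : Mat m) (a : Fin m → ℝ) (k n' : Mat m) (b : Fin m → ℝ) (k' : Mat m),
      Sgl h n a k → Sgl g n' b k' →
      ∑' α : ZM m, ENNReal.ofReal ((1 + sz (kk r h (cR α) g)) ^ (-N)) ≤
        ENNReal.ofReal (C * (skw a * skw b)) := by
  classical
  have hm0 : (m : ℝ) ≠ 0 := by
    have : (0 : ℝ) < m := by exact_mod_cast hm1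
    exact this.ne'
  set c : ℝ := 2 * ((m : ℝ) ^ 3 * 2 ^ m * r) with hc
  have hc0 : 0 < c := by
    have : (0 : ℝ) < m := by exact_mod_cast hm1
    positivity
  set P0 : ℝ := (1 + c) ^ (m * m) * (((4 : ℝ) ^ m) ^ (m * m)) ^ 2 with hP0
  have hP0p : 0 < P0 := by positivity
  have hsum : Summable fun t : ℕ => ((t : ℝ) + 1) ^ ((m : ℝ) * m - N) := by
    have h1 : Summable fun t : ℕ => ((t : ℝ)) ^ ((m : ℝ) * m - N) :=
      Real.summable_nat_rpow.2 (by linarith)
    have h2 := (summable_nat_add_iff 1).2 h1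
    refine h2.congr fun t => ?_
    push_cast
    rfl
  set Q : ℝ := ∑' t : ℕ, ((t : ℝ) + 1) ^ ((m : ℝ) * m - N) with hQ
  have hQ0 : 0 ≤ Q := tsum_nonneg fun t => by positivity
  refine ⟨P0 * (Q + 1), by positivity, ?_⟩
  intro h g hh hg n a k n' b k' hSh hSg
  have hah : 0 < aN h := Real.rpow_pos_of_pos (abs_pos.2 hh) _
  have hag : 0 < aN g := Real.rpow_pos_of_pos (abs_pos.2 hg) _
  have hAm : (aN h) ^ m = ∏ j, a j := by
    rw [← (hC m h n a k hSh).2.2.2]
    unfold aN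
    rw [← Real.rpow_natCast, ← Real.rpow_mul (abs_nonneg _), one_div, inv_mul_cancel₀ hm0,
      Real.rpow_one]
  have hBm : (aN g) ^ m = ∏ j, b j := by
    rw [← (hC m g n' b k' hSg).2.2.2]
    unfold aN
    rw [← Real.rpow_natCast, ← Real.rpow_mul (abs_nonneg _), one_div, inv_mul_cancel₀ hm0,
      Real.rpow_one]
  set R : ℕ → Fin m → ℝ := fun t i =>
    ((m : ℝ) ^ 3 * 2 ^ m * r * (aN g / aN h)) * a i * ((t : ℝ) + 1) with hR
  have hR0 : ∀ t i, 0 ≤ R t i := by
    intro t i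
    have := hSh.pos i
    simp only [hR]
    positivity
  -- one term
  have hterm : ∀ α : ZM m, ENNReal.ofReal ((1 + sz (kk r h (cR α) g)) ^ (-N)) ≤
      ∑' t : ℕ, ENNReal.ofReal (((t : ℝ) + 1) ^ (-N)) *
        (if ∀ i, rowN (vb (α i) g) ≤ R t i then (1 : ENNReal) else 0) := by
    intro α
    set s := sz (kk r h (cR α) g) with hs
    have hs0 : 0 ≤ s := norm_nonneg _
    refine le_trans ?_ (ENNReal.le_tsum ⌊s⌋₊)
    have h1 : (⌊s⌋₊ : ℝ) ≤ s := Nat.floor_le hs0
    have h2 : s ≤ (⌊s⌋₊ : ℝ) + 1 := (Nat.lt_floor_add_one s).le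
    rw [if_pos, mul_one]
    · refine ENNReal.ofReal_le_ofReal ?_
      have hN0 : -N ≤ 0 := by
        have : (0 : ℝ) ≤ (m : ℝ) * m := by positivity
        linarith
      exact Real.rpow_le_rpow_of_nonpos (by positivity) (by linarith) hN0
    · intro i
      refine (sc_bound hC hm1 r hr h g hh hg n a k hSh α i).trans ?_
      have := hSh.pos i
      simp only [hR]
      exact mul_le_mul_of_nonneg_left h2 (by positivity)
  have hprod : ∀ t : ℕ, ∏ i, ∏ j, (1 + 2 * R t i / b j) ≤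
      ((t : ℝ) + 1) ^ (m * m) * (P0 * (skw a * skw b)) := by
    intro t
    have ht : (1 : ℝ) ≤ (t : ℝ) + 1 := by
      have : (0 : ℝ) ≤ (t : ℝ) := Nat.cast_nonneg _
      linarith
    have h1 : ∏ i, ∏ j, (1 + 2 * R t i / b j) ≤
        ∏ i : Fin m, ∏ j : Fin m, (((t : ℝ) + 1) * (1 + c * (aN g / aN h) * a i / b j)) := by
      have h0 : ∀ i j, 0 ≤ 1 + 2 * R t i / b j := by
        intro i j
        have := hR0 t i
        have := hSg.pos j
        positivity
      refine Finset.prod_le_prod (fun i _ => Finset.prod_nonneg fun j _ => h0 i j) fun i _ =>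
        Finset.prod_le_prod (fun j _ => h0 i j) fun j _ => ?_
      have e : 2 * R t i / b j = ((t : ℝ) + 1) * (c * (aN g / aN h) * a i / b j) := by
        simp only [hR, hc]
        ring
      rw [e]
      nlinarith
    refine h1.trans ?_
    simp only [Finset.prod_mul_distrib, Finset.prod_const, Finset.card_univ, Fintype.card_fin]
    rw [← pow_mul]
    refine mul_le_mul_of_nonneg_left ?_ (by positivity)
    exact sc_prod a b hSh.pos hSg.pos hSh.ord hSg.ord (aN h) (aN g) hah hag hAm hBm c hc0.le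
  have hsk : 0 ≤ skw a * skw b := by
    have h1 : ∀ (v : Fin m → ℝ), (∀ i, 0 < v i) → 0 ≤ skw v := by
      intro v hv
      unfold skw
      refine Finset.prod_nonneg fun i _ => Finset.prod_nonneg fun j _ => ?_
      split_ifs
      · exact (div_pos (hv j) (hv i)).le
      · exact zero_le_one
    exact mul_nonneg (h1 a hSh.pos) (h1 b hSg.pos)
  calc ∑' α : ZM m, ENNReal.ofReal ((1 + sz (kk r h (cR α) g)) ^ (-N))
      ≤ ∑' α : ZM m, ∑' t : ℕ, ENNReal.ofReal (((t : ℝ) + 1) ^ (-N)) *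
        (if ∀ i, rowN (vb (α i) g) ≤ R t i then (1 : ENNReal) else 0) :=
        ENNReal.tsum_le_tsum hterm
    _ = ∑' t : ℕ, ∑' α : ZM m, ENNReal.ofReal (((t : ℝ) + 1) ^ (-N)) *
        (if ∀ i, rowN (vb (α i) g) ≤ R t i then (1 : ENNReal) else 0) := ENNReal.tsum_comm
    _ = ∑' t : ℕ, ENNReal.ofReal (((t : ℝ) + 1) ^ (-N)) * ∑' α : ZM m,
        (if ∀ i, rowN (vb (α i) g) ≤ R t i then (1 : ENNReal) else 0) := by
        refine tsum_congr fun t => ?_
        rw [ENNReal.tsum_mul_left]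
    _ ≤ ∑' t : ℕ, ENNReal.ofReal (((t : ℝ) + 1) ^ ((m : ℝ) * m - N) *
          (P0 * (skw a * skw b))) := by
        refine ENNReal.tsum_le_tsum fun t => ?_
        have h1 := sc_count hC g n' b k' hSg (R t) (hR0 t)
        refine (mul_le_mul' le_rfl h1).trans ?_
        rw [← ENNReal.ofReal_mul (by positivity)]
        refine ENNReal.ofReal_le_ofReal ?_
        refine (mul_le_mul_of_nonneg_left (hprod t) (by positivity)).trans (le_of_eq ?_)
        rw [← mul_assoc, ← Real.rpow_natCast, ← Real.rpow_add (by positivity)]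
        congr 2
        push_cast
        ring
    _ = ENNReal.ofReal (Q * (P0 * (skw a * skw b))) := by
        rw [hQ, ← ENNReal.ofReal_tsum_of_nonneg, tsum_mul_right]
        · intro t
          positivity
        · exact hsum.mul_right _
    _ ≤ _ := by
        refine ENNReal.ofReal_le_ofReal ?_
        have : 0 ≤ P0 * (skw a * skw b) := by positivity
        nlinarith

private lemma sc_cR_mul {m : ℕ} (α β : ZM m) : cR (α * β) = cR α * cR β := by
  unfold cR
  exact Matrix.map_mul (f := Int.castRingHom ℝ)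

private lemma sc_cR_one {m : ℕ} : cR (1 : ZM m) = 1 := by
  unfold cR
  exact Matrix.map_one _ Int.cast_zero Int.cast_one

private lemma sc_det_unit {m : ℕ} (u : (ZM m)ˣ) : |(cR (u : ZM m)).det| = 1 := by
  have h1 : (cR (u : ZM m)).det = (((u : ZM m).det : ℤ) : ℝ) := by
    unfold cR
    exact ((Int.castRingHom ℝ).map_det (u : ZM m)).symm
  have h2 : IsUnit (u : ZM m).det := (Matrix.isUnit_iff_isUnit_det _).1 u.isUnit
  rw [h1]
  rcases Int.isUnit_iff.1 h2 with h3 | h3 <;> rw [h3] <;> norm_num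

private lemma sc_aN_unit {m : ℕ} (u : (ZM m)ˣ) (h : Mat m) : aN (cR (u : ZM m) * h) = aN h := by
  unfold aN
  rw [Matrix.det_mul, abs_mul, sc_det_unit, one_mul]

private lemma sc_det_ne {m : ℕ} (u : (ZM m)ˣ) (h : Mat m) (hh : h.det ≠ 0) :
    (cR (u : ZM m) * h).det ≠ 0 := by
  rw [Matrix.det_mul]
  refine mul_ne_zero ?_ hh
  intro h0
  have := sc_det_unit u
  rw [h0, abs_zero] at this
  exact zero_ne_one this

private lemma sc_kk {m : ℕ} (u v : (ZM m)ˣ) (r : ℝ) (h g : Mat m) (α : ZM m) :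
    kk r h (cR ((u⁻¹ : (ZM m)ˣ) * α * (v : ZM m))) g =
      kk r (cR (u : ZM m) * h) (cR α) (cR (v : ZM m) * g) := by
  unfold kk
  rw [sc_aN_unit, sc_aN_unit, Matrix.mul_inv_rev]
  have h1 : (cR (u : ZM m))⁻¹ = cR ((u⁻¹ : (ZM m)ˣ) : ZM m) := by
    refine Matrix.inv_eq_left_inv ?_
    rw [← sc_cR_mul, Units.inv_mul, sc_cR_one]
  rw [h1, sc_cR_mul, sc_cR_mul]
  simp only [Matrix.mul_assoc]

private lemma sc_reindex {m : ℕ} (u v : (ZM m)ˣ) (f : ZM m → ENNReal) :
    ∑' α : ZM m, f ((u⁻¹ : (ZM m)ˣ) * α * (v : ZM m)) = ∑' α : ZM m, f α := by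
  let e : ZM m ≃ ZM m :=
    { toFun := fun α => (u⁻¹ : (ZM m)ˣ) * α * (v : ZM m)
      invFun := fun α => (u : ZM m) * α * ((v⁻¹ : (ZM m)ˣ) : ZM m)
      left_inv := fun α => by
        show (u : ZM m) * ((u⁻¹ : (ZM m)ˣ) * α * (v : ZM m)) * ((v⁻¹ : (ZM m)ˣ) : ZM m) = α
        rw [Matrix.mul_assoc, Matrix.mul_assoc, Matrix.mul_assoc, Units.mul_inv, Matrix.mul_one,
          ← Matrix.mul_assoc, Units.mul_inv, Matrix.one_mul]
      right_inv := fun α => by
        show (u⁻¹ : (ZM m)ˣ) * ((u : ZM m) * α * ((v⁻¹ : (ZM m)ˣ) : ZM m)) * (v : ZM m) = α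
        rw [Matrix.mul_assoc, Matrix.mul_assoc, Matrix.mul_assoc, Units.inv_mul, Matrix.mul_one,
          ← Matrix.mul_assoc, Units.inv_mul, Matrix.one_mul] }
  exact e.tsum_eq f

private lemma sc_skw_lo {m : ℕ} (a : Fin m → ℝ) (ha : ∀ i, 0 < a i)
    (ho : ∀ i j, i ≤ j → a i ≤ 2 ^ m * a j) : ((2 : ℝ) ^ m)⁻¹ ^ (m * m) ≤ skw a := by
  have e : ((2 : ℝ) ^ m)⁻¹ ^ (m * m) = ∏ _i : Fin m, ∏ _j : Fin m, ((2 : ℝ) ^ m)⁻¹ := by
    simp only [Finset.prod_const, Finset.card_univ, Fintype.card_fin]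
    rw [← pow_mul]
  rw [e]
  unfold skw
  refine Finset.prod_le_prod (fun i _ => Finset.prod_nonneg fun j _ => by positivity) fun i _ =>
    Finset.prod_le_prod (fun j _ => by positivity) fun j _ => ?_
  split_ifs with h
  · rw [inv_le_comm₀ (by positivity) (div_pos (ha j) (ha i)), inv_div, div_le_iff₀ (ha j)]
    exact ho i j h.le
  · exact inv_le_one_of_one_le₀ (one_le_pow₀ (by norm_num))

/-- `Tht` is bounded below -/
private lemma sc_Tht_lo {m : ℕ} (z : Mat m) :
    ENNReal.ofReal (((2 : ℝ) ^ m)⁻¹ ^ (m * m)) ≤ Tht z := by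
  unfold Tht
  refine le_iInf fun γ => le_iInf fun _ => le_iInf fun n => le_iInf fun a => le_iInf fun k =>
    le_iInf fun hS => ENNReal.ofReal_le_ofReal (sc_skw_lo a hS.pos hS.ord)

theorem sc_tht (hC : T_CNT) {m : ℕ} (hm1 : 1 ≤ m) (N : ℝ) (hN : (m : ℝ) * m + 1 < N)
    (r : ℝ) (hr : 0 < r) : ∃ C : ℝ, 0 < C ∧ ∀ h g : Mat m, h.det ≠ 0 → g.det ≠ 0 →
      ∑' α : ZM m, ENNReal.ofReal ((1 + sz (kk r h (cR α) g)) ^ (-N)) ≤
        ENNReal.ofReal C * (Tht h * Tht g) := by
  obtain ⟨C, hC0, H⟩ := sc_main hC hm1 N hN r hr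
  refine ⟨C, hC0, fun h g hh hg => ?_⟩
  set S := ∑' α : ZM m, ENNReal.ofReal ((1 + sz (kk r h (cR α) g)) ^ (-N)) with hS
  have hCn : ENNReal.ofReal C ≠ 0 := by
    rw [Ne, ENNReal.ofReal_eq_zero, not_le]
    exact hC0
  have hlo : ∀ z : Mat m, Tht z ≠ 0 := by
    intro z h0
    have h1 := sc_Tht_lo z
    rw [h0, nonpos_iff_eq_zero, ENNReal.ofReal_eq_zero, ← not_lt] at h1
    exact h1 (by positivity)
  -- the bound for fixed data
  have key : ∀ (γ : ZM m), IsUnit γ → ∀ (n : Mat m) (a : Fin m → ℝ) (k : Mat m),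
      Sgl (cR γ * h) n a k → ∀ (γ' : ZM m), IsUnit γ' → ∀ (n' : Mat m) (b : Fin m → ℝ) (k' : Mat m),
      Sgl (cR γ' * g) n' b k' → S ≤ ENNReal.ofReal C *
        (ENNReal.ofReal (skw a) * ENNReal.ofReal (skw b)) := by
    rintro _ ⟨u, rfl⟩ n a k hSa _ ⟨v, rfl⟩ n' b k' hSb
    have h1 := H (cR (u : ZM m) * h) (cR (v : ZM m) * g) (sc_det_ne u h hh) (sc_det_ne v g hg)
      n a k n' b k' hSa hSb
    have h2 : S = ∑' α : ZM m, ENNReal.ofReal ((1 + sz (kk r (cR (u : ZM m) * h) (cR α)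
        (cR (v : ZM m) * g))) ^ (-N)) := by
      rw [hS, ← sc_reindex u v]
      refine tsum_congr fun α => ?_
      rw [sc_kk]
    rw [h2]
    refine h1.trans (le_of_eq ?_)
    rw [ENNReal.ofReal_mul hC0.le, ENNReal.ofReal_mul]
    exact le_trans (by positivity) (sc_skw_lo a hSa.pos hSa.ord)
  -- the infimum over the data of `g`
  have key2 : ∀ (γ : ZM m), IsUnit γ → ∀ (n : Mat m) (a : Fin m → ℝ) (k : Mat m),
      Sgl (cR γ * h) n a k → S / (ENNReal.ofReal C * ENNReal.ofReal (skw a)) ≤ Tht g := by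
    intro γ hγ n a k hSa
    have hs : ENNReal.ofReal (skw a) ≠ 0 := by
      rw [Ne, ENNReal.ofReal_eq_zero, not_le]
      exact lt_of_lt_of_le (by positivity) (sc_skw_lo a hSa.pos hSa.ord)
    conv_rhs => unfold Tht
    refine le_iInf fun γ' => le_iInf fun hγ' => le_iInf fun n' => le_iInf fun b =>
      le_iInf fun k' => le_iInf fun hSb => ?_
    have h1 := key γ hγ n a k hSa γ' hγ' n' b k' hSb
    refine ENNReal.div_le_of_le_mul' ?_
    rw [mul_assoc]
    exact h1
  have key3 : ∀ (γ : ZM m), IsUnit γ → ∀ (n : Mat m) (a : Fin m → ℝ) (k : Mat m),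
      Sgl (cR γ * h) n a k → S / (ENNReal.ofReal C * Tht g) ≤ ENNReal.ofReal (skw a) := by
    intro γ hγ n a k hSa
    have hs : ENNReal.ofReal (skw a) ≠ 0 := by
      rw [Ne, ENNReal.ofReal_eq_zero, not_le]
      exact lt_of_lt_of_le (by positivity) (sc_skw_lo a hSa.pos hSa.ord)
    have h1 := key2 γ hγ n a k hSa
    rw [ENNReal.div_le_iff (mul_ne_zero hCn hs)
      (ENNReal.mul_ne_top ENNReal.ofReal_ne_top ENNReal.ofReal_ne_top)] at h1
    refine ENNReal.div_le_of_le_mul ?_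
    refine h1.trans (le_of_eq ?_)
    ring
  have key4 : S / (ENNReal.ofReal C * Tht g) ≤ Tht h := by
    conv_rhs => unfold Tht
    exact le_iInf fun γ => le_iInf fun hγ => le_iInf fun n => le_iInf fun a =>
      le_iInf fun k => le_iInf fun hSa => key3 γ hγ n a k hSa
  by_cases ht : Tht g = ⊤
  · rw [ht, ENNReal.mul_top (hlo h), ENNReal.mul_top hCn]
    exact le_top
  · rw [ENNReal.div_le_iff (mul_ne_zero hCn (hlo g)) (ENNReal.mul_ne_top ENNReal.ofReal_ne_top ht)]
      at key4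
    refine key4.trans (le_of_eq ?_)
    ring

theorem pf_THT (hC : T_CNT) : T_THT := by
  intro m hm1 Ψ hΨ ρ hρ
  obtain ⟨B, hB0, hB⟩ := hΨ.dec (m * m + 2)
  obtain ⟨C, hC0, H⟩ := sc_tht hC hm1 ((m * m + 2 : ℕ) : ℝ) (by push_cast; linarith) ρ hρ
  refine ⟨(B + 1) * C, by positivity, ?_⟩
  intro g h hg _ hh _
  have hm0 : (1 / (m : ℝ)) ≠ 0 := by
    have : (0 : ℝ) < m := by exact_mod_cast hm1
    positivity
  have hdet : ∀ z : Mat m, 1 ≤ aN z → z.det ≠ 0 := by
    intro z hz h0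
    unfold aN at hz
    rw [h0, abs_zero, Real.zero_rpow hm0] at hz
    linarith
  calc ∑' β : ZM m, ENNReal.ofReal ‖Ψ (kk ρ g (cR β) h)‖
      ≤ ∑' β : ZM m, ENNReal.ofReal (B + 1) *
        ENNReal.ofReal ((1 + sz (kk ρ g (cR β) h)) ^ (-((m * m + 2 : ℕ) : ℝ))) := by
        refine ENNReal.tsum_le_tsum fun β => ?_
        rw [← ENNReal.ofReal_mul (by positivity)]
        refine ENNReal.ofReal_le_ofReal ((hB _).trans ?_)
        have hs : 0 ≤ sz (kk ρ g (cR β) h) := norm_nonneg _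
        exact mul_le_mul_of_nonneg_right (by linarith) (Real.rpow_nonneg (by linarith) _)
    _ = ENNReal.ofReal (B + 1) * ∑' β : ZM m,
        ENNReal.ofReal ((1 + sz (kk ρ g (cR β) h)) ^ (-((m * m + 2 : ℕ) : ℝ))) :=
        ENNReal.tsum_mul_left
    _ ≤ ENNReal.ofReal (B + 1) * (ENNReal.ofReal C * (Tht g * Tht h)) :=
        mul_le_mul' le_rfl (H g h (hdet g hg) (hdet h hh))
    _ = ENNReal.ofReal ((B + 1) * C) * Tht g * Tht h := by
        rw [ENNReal.ofReal_mul (by positivity)]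
        ring

end Pool.Agent.H27.L1.H27.GU
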